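import Mathlib
set_option autoImplicit false
namespace Pool.Agent.Results.MP_82653f_gt.Counter
open Set Topology Filter
universe u v

def UOK (X : Type u) [TopologicalSpace X] : Prop :=
  ∀ (L : Type u) [TopologicalSpace L] [T2Space L] [LocallyCompactSpace L] [NoncompactSpace L]
    (f : L → X), Continuous f → ∀ g h : OnePoint L → X, Continuous g → Continuous h →
      (∀ x : L, g x = f x) → (∀ x : L, h x = f x) → g = h

def CHausdorff (C : ∀ Z : Type v, TopologicalSpace Z → Prop) (X : Type u) [TopologicalSpace X] :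
    Prop :=
  ∀ (Z : Type v) [t : TopologicalSpace Z], C Z t → ∀ f : Z → X × X, Continuous f →
    IsClosed (f ⁻¹' diagonal X)

section
variable {Y : Type u} (A : Set Y)

def rel : Setoid (Y × Bool) where
  r a b := a.1 = b.1 ∧ (a.2 = b.2 ∨ a.1 ∈ A)
  iseqv := ⟨fun _ => ⟨rfl, Or.inl rfl⟩, by grind, by grind⟩

def P : Type u := Quotient (rel A)

def i (b : Bool) (y : Y) : P A := Quotient.mk (rel A) (y, b)

def pr : P A → Y := Quotient.lift Prod.fst fun _ _ h => h.1

lemma i_eq {b c : Bool} {y z : Y} : i A b y = i A c z ↔ y = z ∧ (b = c ∨ y ∈ A) :=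
  Quotient.eq

lemma i_surj (x : P A) : ∃ b, x = i A b (pr A x) := by
  induction x using Quotient.inductionOn with | _ x => exact ⟨x.2, rfl⟩

variable [TopologicalSpace Y]

instance : TopologicalSpace (P A) := inferInstanceAs (TopologicalSpace (Quotient (rel A)))

lemma i_cont (b : Bool) : Continuous (i A b) :=
  continuous_quotient_mk'.comp (continuous_id.prodMk continuous_const)

lemma pr_cont : Continuous (pr A) := Continuous.quotient_lift continuous_fst _

lemma i_open (hA : IsOpen A) (b : Bool) : IsOpen (range (i A b)) := by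
  refine isOpen_coinduced.2 ?_
  have : Quotient.mk (rel A) ⁻¹' range (i A b) = Prod.snd ⁻¹' {b} ∪ Prod.fst ⁻¹' A := by
    ext ⟨y, c⟩
    refine ⟨?_, fun h => ⟨y, (i_eq A (c := c)).2 ⟨rfl, h.imp_left Eq.symm⟩⟩⟩
    rintro ⟨z, h⟩
    obtain ⟨rfl, h'⟩ := (i_eq A (c := c)).1 h
    exact h'.imp_left Eq.symm
  change IsOpen (Quotient.mk (rel A) ⁻¹' range (i A b))
  rw [this]
  exact ((isOpen_discrete _).preimage continuous_snd).union (hA.preimage continuous_fst)

lemma sep (hA : IsOpen A) {x y : P A} (h : pr A x = pr A y) (hne : x ≠ y) :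
    pr A x ∉ A ∧ ∃ U V, IsOpen U ∧ IsOpen V ∧ x ∈ U ∧ y ∈ V ∧ ∀ w ∈ U ∩ V, pr A w ∈ A := by
  obtain ⟨b, hb⟩ := i_surj A x
  obtain ⟨c, hc⟩ := i_surj A y
  have h1 : ¬ (b = c ∨ pr A x ∈ A) := fun h' => hne (by rw [hb, hc]; exact (i_eq A).2 ⟨h, h'⟩)
  refine ⟨fun h => h1 (Or.inr h), _, _, i_open A hA b, i_open A hA c, ⟨_, hb.symm⟩, ⟨_, hc.symm⟩, ?_⟩
  rintro _ ⟨⟨z, rfl⟩, w, hw⟩
  obtain ⟨rfl, h2⟩ := (i_eq A).1 hw
  exact h2.resolve_left fun h => h1 (Or.inl h.symm)

lemma uok [T2Space Y] (hA : IsOpen A)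
    (H : ∀ C q, IsCompact C → C ⊆ insert q A → q ∉ A → ¬ AccPt q (𝓟 C)) : UOK (P A) := by
  intro L _ _ _ _ f _ g h hg hh h1 h2
  have h3 (x : L) : g x = h x := (h1 x).trans (h2 x).symm
  have h4 : pr A ∘ g = pr A ∘ h := OnePoint.denseRange_coe.equalizer ((pr_cont A).comp hg)
    ((pr_cont A).comp hh) (funext fun x => congrArg (pr A) (h3 x))
  funext x
  induction x using OnePoint.rec with
  | coe x => exact h3 x
  | infty =>
  by_contra hne
  obtain ⟨hq, U, V, hU, hV, h5, h6, h7⟩ := sep A hA (congrFun h4 _) hne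
  obtain ⟨N, hN, h8, h9⟩ := local_compact_nhds
    (inter_mem ((hU.preimage hg).mem_nhds h5) ((hV.preimage hh).mem_nhds h6))
  have h10 (x : L) (hx : ↑x ∈ N) : pr A (g x) ∈ A := h7 _ ⟨(h8 hx).1, h3 x ▸ (h8 hx).2⟩
  refine H _ _ (h9.image ((pr_cont A).comp hg)) ?_ hq (accPt_iff_nhds.2 fun W hW => ?_)
  · rintro _ ⟨x, hx, rfl⟩
    induction x using OnePoint.rec with
    | coe x => exact Or.inr (h10 x hx)
    | infty => exact Or.inl rfl
  · obtain ⟨x, hx⟩ := OnePoint.denseRange_coe.mem_nhds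
      (inter_mem hN (((pr_cont A).comp hg).continuousAt hW))
    exact ⟨_, ⟨hx.2, _, hx.1, rfl⟩, fun h => hq (h ▸ h10 x hx.1)⟩

end

lemma ed {K : Type u} [TopologicalSpace K] [ExtremallyDisconnected K] (c : ℕ → Set K)
    (hc : ∀ n, IsClopen (c n)) (C : Set K) (q : K) (hC : IsCompact C)
    (h1 : C ⊆ insert q (⋃ n, c n)) (hq : q ∉ ⋃ n, c n) : ¬ AccPt q (𝓟 C) := by
  intro h
  have hd (n : ℕ) : IsClopen (disjointed c n) := by
    rw [disjointed_eq_inter_compl]
    exact (hc n).inter ((finite_lt_nat n).isClopen_biInter fun j _ => (hc j).compl)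
  rw [← iUnion_disjointed] at h1 hq
  have hdis := disjoint_disjointed c
  generalize disjointed c = d at *
  have h2 : {n | (d n ∩ C).Nonempty}.Infinite := fun h2 => by
    obtain ⟨y, ⟨h3, h4⟩, h5⟩ := accPt_iff_nhds.1 h _
      ((h2.isClopen_biUnion fun n _ => hd n).compl.2.mem_nhds fun h =>
        hq (iUnion₂_subset_iUnion _ _ h))
    obtain ⟨n, hn⟩ := mem_iUnion.1 ((h1 h4).resolve_left h5)
    exact h3 (mem_biUnion ⟨y, hn, h4⟩ hn)
  let e := h2.natEmbedding
  have h3 (g : ℕ → ℕ) (hg : Function.Injective g) : q ∈ closure (⋃ n, d (e (g n))) := by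
    refine mem_closure_iff.2 fun V hV hqV => ?_
    by_contra! h3
    obtain ⟨t, ht⟩ := (hC.diff hV).elim_finite_subcover d (fun n => (hd n).2) fun x hx =>
      (h1 hx.1).resolve_left fun h => hx.2 (h ▸ hqV)
    refine (infinite_range_of_injective
      (Subtype.val_injective.comp (e.injective.comp hg))) (t.finite_toSet.subset ?_)
    rintro _ ⟨n, rfl⟩
    obtain ⟨y, h4, h5⟩ := (e (g n)).2
    obtain ⟨m, hm, h6⟩ := mem_iUnion₂.1 (ht ⟨h5, fun h => h3.subset ⟨h, mem_iUnion.2 ⟨n, h4⟩⟩⟩)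
    by_contra h7
    exact disjoint_left.1 (hdis (fun h : m = e (g n) => h7 (show (e (g n) : ℕ) ∈ (t : Set ℕ) from h ▸ hm))) h6 h4
  refine disjoint_left.1 (ExtremallyDisconnected.disjoint_closure_of_disjoint_isOpen ?_
    (isOpen_iUnion fun _ => (hd _).2) (isOpen_iUnion fun _ => (hd _).2))
    (h3 (fun n => 2 * n) fun a b h => by simpa using h)
    (h3 (fun n => 2 * n + 1) fun a b h => by simpa using h)
  simp only [disjoint_iUnion_left, disjoint_iUnion_right]
  intro n m
  refine hdis fun h => ?_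
  have := e.injective (Subtype.ext h)
  omega

def Kd (K : Type u) : Type u := K

instance {K : Type u} [TopologicalSpace K] : TopologicalSpace (Kd K) :=
  .generateFrom {U : Set K | ∃ c : ℕ → Set K, (∀ n, IsClopen (c n)) ∧ U = (⋃ n, c n)ᶜ}

section
variable {K : Type u} [TopologicalSpace K] [TotallySeparatedSpace K]

omit [TotallySeparatedSpace K] in
lemma kd_open {U : Set K} (h : IsClopen U) : IsOpen (X := Kd K) U :=
  TopologicalSpace.isOpen_generateFrom_of_mem ⟨fun _ => Uᶜ, fun _ => h.compl, by simp [iUnion_const]⟩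

instance : T2Space (Kd K) := ⟨fun x y h => by
  obtain ⟨U, hU, h1, h2⟩ := exists_isClopen_of_totally_separated (α := K) h
  exact ⟨U, Uᶜ, kd_open (K := K) hU, kd_open (K := K) hU.compl, h1, h2, disjoint_compl_right⟩⟩

lemma kd_fin {C : Set (Kd K)} (hC : IsCompact C) : C.Finite := by
  by_contra h
  obtain ⟨S, h1, h3, h2⟩ := Infinite.exists_subset_countable_infinite h
  obtain ⟨x, -, hx⟩ := h2.exists_accPt_of_subset_isCompact hC h1
  obtain ⟨f, hf⟩ := (h3.mono diff_subset).exists_eq_range (h2.diff (finite_singleton x)).nonempty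
  have h4 (n : ℕ) : ∃ U : Set K, IsClopen U ∧ f n ∈ U ∧ x ∈ Uᶜ :=
    exists_isClopen_of_totally_separated (α := K) (hf.ge (mem_range_self n)).2
  choose c h4 h5 h6 using h4
  obtain ⟨y, ⟨h7, h8⟩, h9⟩ := accPt_iff_nhds.1 hx (⋃ n, c n)ᶜ
    (IsOpen.mem_nhds (by exact TopologicalSpace.isOpen_generateFrom_of_mem ⟨c, h4, rfl⟩)
      fun h => (mem_iUnion.1 h).elim h6)
  obtain ⟨n, rfl⟩ := hf.le ⟨h8, h9⟩
  exact h7 (mem_iUnion.2 ⟨n, h5 n⟩)

end

lemma not_uok {K : Type u} [TopologicalSpace K] [CompactSpace K] [T2Space K] (p : K)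
    (hp : AccPt p (𝓟 univ)) : ¬ UOK (P ({p}ᶜ : Set K)) := by
  intro h
  have := isOpen_compl_singleton (x := p).locallyCompactSpace
  have : NoncompactSpace ({p}ᶜ : Set K) := not_compactSpace_iff.1 fun h => by
    obtain ⟨y, h1, h2⟩ := accPt_iff_nhds.1 hp _
      ((isCompact_iff_compactSpace.2 h).isClosed.isOpen_compl.mem_nhds (by simp))
    exact h1.1 h2
  have he : Continuous fun x : OnePoint ({p}ᶜ : Set K) => x.elim p (↑) := by
    refine (OnePoint.continuous_iff _).2 ⟨fun V hV => ?_, continuous_subtype_val⟩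
    obtain ⟨W, h1, h2, h3⟩ := mem_nhds_iff.1 hV
    refine hasBasis_coclosedCompact.mem_iff.2 ⟨Subtype.val ⁻¹' Wᶜ,
      ⟨h2.isClosed_compl.preimage continuous_subtype_val, ?_⟩, fun x hx => h1 (not_not.1 hx)⟩
    rw [Subtype.isCompact_iff, Subtype.image_preimage_coe, inter_eq_right.2]
    · exact h2.isClosed_compl.isCompact
    · rintro x hx rfl
      exact hx h3
  have := congrFun (h _ _ ((i_cont _ false).comp continuous_subtype_val) _ _
    ((i_cont _ false).comp he) ((i_cont _ true).comp he) (fun x => rfl)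
    fun x => (i_eq _).2 ⟨rfl, Or.inr x.2⟩) OnePoint.infty
  simpa using ((i_eq _).1 this).2

theorem result : ¬ ∃ C : ∀ Z : Type v, TopologicalSpace Z → Prop,
    ∀ (X : Type u) [TopologicalSpace X], CHausdorff C X ↔ UOK X := by
  rintro ⟨C, H⟩
  let K := StoneCech (ULift.{u} ℕ)
  have : ExtremallyDisconnected K := StoneCech.projective.extremallyDisconnected
  have : Infinite K := .of_injective _ injective_stoneCechUnit_of_t35Space
  obtain ⟨p, -, hp⟩ := (infinite_univ (α := K)).exists_accPt_of_subset_isCompact isCompact_univ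
    Subset.rfl
  refine not_uok p hp ((H _).1 fun Z _ hZ f hf => ?_)
  have h1 (h : Z → K) (hh : Continuous h) : Continuous (Y := Kd K) h := by
    refine continuous_generateFrom_iff.2 ?_
    rintro _ ⟨c, hc, rfl⟩
    have := (H _).2 (uok _ (isOpen_iUnion fun n => (hc n).2) (ed c hc)) Z hZ _
      (((i_cont _ false).comp hh).prodMk ((i_cont _ true).comp hh))
    convert this.isOpen_compl using 2
    ext z
    exact not_congr ⟨fun h => (i_eq _).2 ⟨rfl, Or.inr h⟩,
      fun h => ((i_eq _).1 h).2.resolve_left (by simp)⟩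
  have h2 := (pr_cont _).comp hf.fst
  have h3 := (pr_cont _).comp hf.snd
  have h4 := (H _).2 (uok ({p}ᶜ : Set (Kd K)) isOpen_compl_singleton fun C q hC _ _ h =>
    (kd_fin hC).not_infinite (.of_accPt h)) Z hZ _
      (((i_cont _ false).comp (h1 _ h2)).prodMk ((i_cont _ true).comp (h1 _ h3)))
  refine isClosed_of_closure_subset fun z hz => by_contra fun hne => ?_
  have h5 := closure_minimal (fun w (h : w ∈ f ⁻¹' diagonal _) => congrArg (pr _) h)
    (isClosed_eq h2 h3) hz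
  obtain ⟨hq, U, V, hU, hV, h6, h7, h8⟩ := sep _ isOpen_compl_singleton h5 hne
  have h9 := ((hU.preimage hf.fst).inter (hV.preimage hf.snd)).inter_closure ⟨⟨h6, h7⟩, hz⟩
  have := closure_minimal (fun w h => (i_eq _).2 ⟨congrArg (pr _) h.2,
    Or.inr (h8 _ ⟨h.1.1, h.2 ▸ h.1.2⟩)⟩) h4 h9
  exact hq (by simpa using ((i_eq _).1 this).2)

end Pool.Agent.Results.MP_82653f_gt.Counter
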